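import Pool.Agent.Helper18_X2.StmtsF
import Pool.Agent.Helper36_PP.Psc
import Pool.Agent.Helper96_PP.Lqv
import Pool.Agent.Helper96_PP.S1g

/-!
Squad x2, module CLF: the family of part X2F is closed.
-/

set_option autoImplicit false

open scoped BigOperators

noncomputable section

namespace Pool.Agent.PP.X2.H24

open Pool.Agent.Helper51_AWC Pool.Agent.Helper79_WRA Pool.Agent.PP

theorem oup_map (ℓ : ℕ) {A B : Type} [Group A] [Group B] (e : A ≃* B) :
    (Oup ℓ A).map (e : A →* B) = Oup ℓ B := by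
  rw [Oup, MonoidHom.map_closure, Oup]
  congr 1
  ext y
  constructor
  · rintro ⟨x, ⟨n, hn⟩, rfl⟩
    exact ⟨n, by rw [← map_pow, hn, map_one]⟩
  · rintro ⟨n, hn⟩
    exact ⟨e.symm y, ⟨n, by rw [← map_pow, hn, map_one]⟩, e.apply_symm_apply y⟩

/-- equivalent groups have equivalent `Oup` -/
def oupEquiv (ℓ : ℕ) {A B : Type} [Group A] [Group B] (e : A ≃* B) : Oup ℓ A ≃* Oup ℓ B :=
  (e.subgroupMap (Oup ℓ A)).trans (MulEquiv.subgroupCongr (oup_map ℓ e))

theorem fixN_map {S T : Type} [Group S] [Group T] (e : S ≃* T) (Q : Subgroup (MulAut S)) :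
    (fixN Q).map (e : S →* T) = fixN (Q.map (MulAut.congr e).toMonoidHom) := by
  ext t
  constructor
  · rintro ⟨s, hs, rfl⟩
    rintro _ ⟨α, hα, rfl⟩
    show e (α (e.symm (e s))) = e s
    rw [e.symm_apply_apply, hs α hα]
  · intro ht
    refine ⟨e.symm t, ?_, e.apply_symm_apply t⟩
    intro α hα
    have h1 : e (α (e.symm t)) = t := ht (MulAut.congr e α) ⟨α, hα, rfl⟩
    rw [← e.symm_apply_apply (α (e.symm t)), h1]

/-- the equivalence of the fixed points -/
def fixEquiv {S T : Type} [Group S] [Group T] (e : S ≃* T) (Q : Subgroup (MulAut S)) :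
    fixN Q ≃* fixN (Q.map (MulAut.congr e).toMonoidHom) :=
  (e.subgroupMap (fixN Q)).trans (MulEquiv.subgroupCongr (fixN_map e Q))

theorem card_of_involves {G S : Type} [Group G] [Finite G] [Group S] (h : Involves G S) :
    Nat.card S ∣ Nat.card G := by
  obtain ⟨A, f, hf⟩ := h
  exact (Subgroup.card_dvd_of_surjective f hf).trans (Subgroup.card_subgroup_dvd_card A)

/-- `PSL_2(K)` is not abelian -/
theorem ps_nonab (K : Type) [Field K] : ∃ a b : PS K, a * b ≠ b * a := by
  refine ⟨uP 1, vP 1, ?_⟩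
  intro h
  rw [uP, vP, ← map_mul, ← map_mul] at h
  have h1 := (QuotientGroup.mk'_eq_mk' _).1 h
  obtain ⟨z, hz, hz1⟩ := h1
  rw [Matrix.SpecialLinearGroup.mem_center_iff] at hz
  obtain ⟨r, -, hr⟩ := hz
  have h2 : ((uS (1 : K) * vS 1 * z : Matrix.SpecialLinearGroup (Fin 2) K) :
      Matrix (Fin 2) (Fin 2) K) = ((vS (1 : K) * uS 1 : Matrix.SpecialLinearGroup (Fin 2) K) :
      Matrix (Fin 2) (Fin 2) K) := congrArg _ hz1
  rw [Matrix.SpecialLinearGroup.coe_mul, Matrix.SpecialLinearGroup.coe_mul,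
    Matrix.SpecialLinearGroup.coe_mul, ← hr] at h2
  have h01 := congrFun (congrFun h2 0) 1
  have h00 := congrFun (congrFun h2 0) 0
  simp [uS, vS, Matrix.mul_apply, Fin.sum_univ_two] at h01 h00
  rw [h01] at h00
  exact one_ne_zero (by linear_combination h00 : (1 : K) = 0)

theorem ps_simple (K : Type) [Field K] (h : 4 ≤ Nat.card K) : NonabSimple (PS K) :=
  ⟨Matrix.ProjectiveSpecialLinearGroup.rank_two_simple h, ps_nonab K⟩

theorem commutator_top {S : Type} [Group S] (hS : NonabSimple S) : commutator S = ⊤ := by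
  obtain ⟨hs, a, b, hab⟩ := hS
  rcases hs.eq_bot_or_eq_top_of_normal (commutator S) inferInstance with h | h
  · exfalso
    apply hab
    have h1 : a ∈ Subgroup.center S := by
      rw [(commutator_eq_bot_iff_center_eq_top S).1 h]
      exact Subgroup.mem_top a
    exact (Subgroup.mem_center_iff.1 h1 b).symm
  · exact h

theorem nonabSimple_of_equiv {S T : Type} [Group S] [Group T] (e : S ≃* T) (hT : NonabSimple T) :
    NonabSimple S := by
  obtain ⟨hs, a, b, hab⟩ := hT
  refine ⟨e.isSimpleGroup, e.symm a, e.symm b, ?_⟩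
  intro h
  apply hab
  have := congrArg e h
  simpa using this

theorem clf (hcys : CysStmt) (hpsq : PsqStmt) (hpsb : PsbStmt) : ClfStmt := by
  intro ℓ _ S _ _ hS hl hSA Q hQ hp hint
  rcases hSA with h | ⟨K, _, _, hchar, ⟨e⟩⟩ | ⟨hR, h⟩
  · right; right
    intro T _ _ hT hlT hinv
    exact Or.inl (hcys ℓ S h T hT hlT hinv.of_subgroup)
  · obtain ⟨Q', hQ'⟩ : ∃ Q' : Subgroup (MulAut (PS K)), Q' = Q.map (MulAut.congr e).toMonoidHom :=
      ⟨_, rfl⟩
    have hp' : IsPGroup ℓ Q' := by
      rw [hQ']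
      exact hp.map _
    have g : fixN Q ≃* fixN Q' := by
      rw [hQ']
      exact fixEquiv e Q
    rcases hpsq ℓ K Q' hp' with h | h | ⟨K₀, _, _, hch, h4, ⟨e'⟩⟩
    · left
      intro h0
      exact h (H96.opCore_bot_of_equiv g.symm h0)
    · right; right
      intro T _ _ hT hlT hinv
      left
      apply H36.cyti_of_not_sq ℓ T hlT
      intro h2
      apply h
      rw [← Nat.card_congr g.toEquiv]
      exact h2.trans (card_of_involves hinv)
    · right; left
      have e2 : Oup ℓ (fixN Q) ≃* PS K₀ := (oupEquiv ℓ g).trans e'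
      have hsim : NonabSimple (PS K₀) := ps_simple K₀ h4
      refine ⟨Unit, inferInstance, fun _ => Oup ℓ (fixN Q), ?_⟩
      refine ⟨fun i j hij => absurd (Subsingleton.elim i j) hij, iSup_const, ?_⟩
      intro _
      refine ⟨PS K₀, inferInstance, inferInstance, hsim, (hpsb ℓ K₀).1, ?_, ?_⟩
      · right; left
        exact ⟨K₀, inferInstance, inferInstance, hch, ⟨MulEquiv.refl _⟩⟩
      · refine ⟨commutator_top (nonabSimple_of_equiv e2 hsim), e2.toMonoidHom, e2.surjective, ?_⟩
        rw [(MonoidHom.ker_eq_bot_iff _).2 e2.injective]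
        exact bot_le
  · rcases h with h | h
    · exfalso
      obtain ⟨α, hα⟩ := Subgroup.ne_bot_iff_exists_ne_one.1 hQ
      obtain ⟨n, hn⟩ := hp α
      obtain ⟨s, hs⟩ := h (α : MulAut S) ⟨n, by
        have := congrArg Subtype.val hn
        simpa using this⟩
      have h1 : (α : MulAut S) ∈ Q ⊓ (MulAut.conj (G := S)).range := ⟨α.2, ⟨s, hs.symm⟩⟩
      rw [hint, Subgroup.mem_bot] at h1
      exact hα (Subtype.ext h1)
    · right; right
      intro T _ _ hT hlT hinv
      rcases h T hT hlT hinv.of_subgroup with h1 | h1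
      · right; right
        refine ⟨h1, Or.inr ?_⟩
        intro T' _ _ hT' hlT' hinv'
        exact h T' hT' hlT' (H96.Involves.trans' hinv.of_subgroup hinv')
      · exact Or.inl h1

end Pool.Agent.PP.X2.H24
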